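import Pool.Agent.Helper69.LW.Basic
import Pool.Agent.Helper18.LW.OD
import Pool.Agent.Helper77.LW.GG

/-!
# MP_687a20_mp : module CO (the constant `SS`)
-/

open MeasureTheory Set Filter Topology
open scoped ContDiff

namespace LeakyWire

variable {f u w : ℝ × ℝ → ℝ}

/-! ### slices -/

theorem Test.co_slice1 (h : Test f) (t : ℝ) :
    ContDiff ℝ ∞ (fun s => f (s, t)) ∧ HasCompactSupport (fun s => f (s, t)) := by
  refine ⟨h.1.comp (contDiff_id.prodMk contDiff_const), ?_⟩
  obtain ⟨L, -, hL⟩ := h.box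
  refine HasCompactSupport.intro (K := Icc (-L) L) isCompact_Icc fun s hs => hL _ (Or.inl ?_)
  rw [mem_Icc, ← abs_le, not_le] at hs
  exact hs

theorem Test.co_slice2 (h : Test f) (s : ℝ) :
    ContDiff ℝ ∞ (fun t => f (s, t)) ∧ HasCompactSupport (fun t => f (s, t)) := by
  refine ⟨h.1.comp (contDiff_const.prodMk contDiff_id), ?_⟩
  obtain ⟨L, -, hL⟩ := h.box
  refine HasCompactSupport.intro (K := Icc (-L) L) isCompact_Icc fun t ht => hL _ (Or.inr ?_)
  rw [mem_Icc, ← abs_le, not_le] at ht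
  exact ht

theorem co_deriv2 (h : Test f) (s t : ℝ) : deriv (fun t => f (s, t)) t = d2 f (s, t) :=
  (hasDerivAt_2 h.diff s t).deriv

theorem Odd2.zero (ho : Odd2 w) (s : ℝ) : w (s, 0) = 0 := by
  have := ho s 0
  rw [neg_zero] at this
  linarith

theorem co_N_le_D (hw : Test w) (ho : Odd2 w) : N w ≤ 4 * ∫ p in hp, D w p ^ 2 := by
  unfold N
  rw [hw.nice.sq.fubini, hw.nice_D.sq.fubini, ← integral_const_mul]
  refine integral_mono hw.nice.sq.fubini_integrable
    (hw.nice_D.sq.fubini_integrable.const_mul 4) fun s => ?_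
  have h1 := hardy_slice (hw.co_slice2 s).1 (hw.co_slice2 s).2
  simp only [ho.zero s, zero_mul, sub_zero] at h1
  refine h1.trans (le_of_eq ?_)
  congr 2
  funext t
  rw [co_deriv2 hw]
  rfl

theorem co_V_eq (hw : Test w) : V w = (∫ p in hp, d1 w p ^ 2) + ∫ p in hp, D w p ^ 2 := by
  unfold V
  exact integral_add (hw.test_d1.nice.sq.integrableOn hp) (hw.nice_D.sq.integrableOn hp)

theorem co_sq_nonneg (f : ℝ × ℝ → ℝ) : 0 ≤ ∫ p in hp, f p ^ 2 :=
  integral_nonneg fun _ => sq_nonneg _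

theorem N_le_V (hw : Test w) (ho : Odd2 w) : N w ≤ 4 * V w := by
  have h1 := co_N_le_D hw ho
  rw [co_V_eq hw]
  have h2 := co_sq_nonneg (d1 w)
  linarith

theorem co_V_nonneg (w : ℝ × ℝ → ℝ) : 0 ≤ V w :=
  integral_nonneg fun p => by positivity

/-- the trace inequality -/
theorem co_trace (hw : Test w) :
    ∫ t, w (0, t) ^ 2 ≤ N w + ∫ p in hp, d1 w p ^ 2 := by
  have h1 : N w + ∫ p in hp, d1 w p ^ 2 = ∫ p in hp, (w p ^ 2 + d1 w p ^ 2) :=
    (integral_add (hw.nice.sq.integrableOn hp) (hw.test_d1.nice.sq.integrableOn hp)).symm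
  have hn : Nice (fun p => w p ^ 2 + d1 w p ^ 2) := hw.nice.sq.add hw.test_d1.nice.sq
  rw [h1, hn.fubini']
  have hint : Integrable (fun t => ∫ s in Ioi (0 : ℝ), (w (s, t) ^ 2 + d1 w (s, t) ^ 2)) := by
    have h2 := hn.integrableOn hp
    rw [IntegrableOn, restrict_hp] at h2
    exact h2.integral_prod_right
  refine integral_mono (hw.nice.sq.slice 0) hint fun t => ?_
  have hd : ∀ s ∈ Ici (0 : ℝ), HasDerivAt (fun s => w (s, t) ^ 2) (2 * w (s, t) * d1 w (s, t)) s := by
    intro s _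
    have h5 := (hasDerivAt_1 hw.diff s t).mul (hasDerivAt_1 hw.diff s t)
    have h6 : (fun s => w (s, t) ^ 2) = (fun s => w (s, t)) * (fun s => w (s, t)) := by
      funext s
      simp only [Pi.mul_apply]
      ring
    have h7 : 2 * w (s, t) * d1 w (s, t) = d1 w (s, t) * w (s, t) + w (s, t) * d1 w (s, t) := by
      ring
    rw [h6, h7]
    exact h5
  have hslice : ∀ {g : ℝ × ℝ → ℝ}, Test g → IntegrableOn (fun s => g (s, t)) (Ioi (0 : ℝ)) := by
    intro g hg
    exact ((hg.co_slice1 t).1.continuous.integrable_of_hasCompactSupport (hg.co_slice1 t).2).integrableOn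
  have hi1 : IntegrableOn (fun s => 2 * w (s, t) * d1 w (s, t)) (Ioi (0 : ℝ)) := by
    have := hslice ((hw.mul hw.test_d1).smul 2)
    refine this.congr (Eventually.of_forall fun s => ?_)
    simp only
    ring
  have ht : Tendsto (fun s => w (s, t) ^ 2) atTop (𝓝 0) := by
    obtain ⟨L, -, hL⟩ := hw.box
    refine tendsto_const_nhds.congr' ?_
    filter_upwards [eventually_gt_atTop (max L 0)] with s hs
    rw [hL (s, t) (Or.inl ?_)]
    · norm_num
    · simp only
      rw [abs_of_pos (lt_of_le_of_lt (le_max_right _ _) hs)]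
      exact lt_of_le_of_lt (le_max_left _ _) hs
  have hF := integral_Ioi_of_hasDerivAt_of_tendsto' hd hi1 ht
  have hi2 : IntegrableOn (fun s => w (s, t) ^ 2 + d1 w (s, t) ^ 2) (Ioi (0 : ℝ)) := by
    have := hslice ((hw.mul hw).add (hw.test_d1.mul hw.test_d1))
    refine this.congr (Eventually.of_forall fun s => ?_)
    simp only
    ring
  have h3 : ∫ s in Ioi (0 : ℝ), -(2 * w (s, t) * d1 w (s, t)) ≤
      ∫ s in Ioi (0 : ℝ), (w (s, t) ^ 2 + d1 w (s, t) ^ 2) := by
    refine integral_mono hi1.neg hi2 fun s => ?_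
    simp only
    nlinarith [sq_nonneg (w (s, t) + d1 w (s, t))]
  rw [integral_neg, hF] at h3
  simpa using h3

theorem co_W_integrable (hw : Test w) : Integrable (fun t => Real.sign t * gs t * w (0, t)) := by
  have h1 := (hw.nice.sign_mul.slice 0)
  have h2 : Integrable (fun t => gs t * (Real.sign t * w (0, t))) := by
    refine h1.bdd_mul (c := 1) gs_cont.aestronglyMeasurable (Eventually.of_forall fun t => ?_)
    rw [Real.norm_eq_abs, abs_of_pos (gs_pos t)]
    exact gs_le_one t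
  refine h2.congr (Eventually.of_forall fun t => ?_)
  simp only
  ring

theorem co_gs_sq_integrable : Integrable (fun t => gs t ^ 2) :=
  gs_integrable.mono' (gs_cont.pow 2).aestronglyMeasurable (Eventually.of_forall fun t => by
    rw [Real.norm_eq_abs, abs_of_nonneg (sq_nonneg _)]
    exact gs_sq_le t)

theorem co_W_sq (hw : Test w) : W w ^ 2 ≤ 2 * ∫ t, w (0, t) ^ 2 := by
  have h1 : ∫ t, 2 * (W w / 2) * (Real.sign t * gs t * w (0, t)) ≤
      ∫ t, ((W w / 2) ^ 2 * gs t ^ 2 + w (0, t) ^ 2) := by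
    refine integral_mono ((co_W_integrable hw).const_mul _)
      ((co_gs_sq_integrable.const_mul _).add (hw.nice.sq.slice 0)) fun t => ?_
    simp only
    have h2 : (Real.sign t) ^ 2 ≤ 1 := by
      rcases Real.sign_apply_eq t with h | h | h <;> rw [h] <;> norm_num
    nlinarith [sq_nonneg (W w / 2 * Real.sign t * gs t - w (0, t)), sq_nonneg (W w / 2 * gs t),
      mul_le_mul_of_nonneg_left h2 (sq_nonneg (W w / 2 * gs t))]
  rw [integral_const_mul, integral_add (co_gs_sq_integrable.const_mul _) (hw.nice.sq.slice 0),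
    integral_const_mul, gs_sq_integral] at h1
  change 2 * (W w / 2) * W w ≤ _ at h1
  nlinarith

theorem W_sq_le (hw : Test w) (ho : Odd2 w) : W w ^ 2 ≤ 10 * V w := by
  have h1 := co_W_sq hw
  have h2 := co_trace hw
  have h3 := co_N_le_D hw ho
  have h4 := co_V_eq hw
  have h5 := co_sq_nonneg (d1 w)
  have h6 := co_V_nonneg w
  linarith

/-! ### the constant `SS` -/

theorem co_SS_bdd : BddAbove {r | ∃ w, Test w ∧ Odd2 w ∧ r = W w ^ 2 / V w} := by
  refine ⟨10, ?_⟩
  rintro r ⟨w, hw, ho, rfl⟩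
  rcases (co_V_nonneg w).eq_or_lt with h | h
  · rw [← h, div_zero]
    norm_num
  · rw [div_le_iff₀ h]
    exact W_sq_le hw ho

theorem co_exists_pos_W : ∃ w, Test w ∧ Odd2 w ∧ 0 < W w := by
  let b : ContDiffBump (0 : ℝ) := ⟨1, 2, one_pos, one_lt_two⟩
  have hb0 : b 0 = 1 := b.one_of_mem_closedBall (Metric.mem_closedBall_self b.rIn_pos.le)
  have hTest : Test (fun p : ℝ × ℝ => p.2 * (b p.1 * b p.2)) := by
    refine ⟨?_, ?_⟩
    · exact contDiff_snd.mul ((b.contDiff.comp contDiff_fst).mul (b.contDiff.comp contDiff_snd))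
    · refine HasCompactSupport.intro
        (K := (Metric.closedBall (0 : ℝ) b.rOut) ×ˢ (Metric.closedBall (0 : ℝ) b.rOut))
        ((isCompact_closedBall _ _).prod (isCompact_closedBall _ _)) ?_
      intro p hpn
      rw [mem_prod, not_and_or, Metric.mem_closedBall, Metric.mem_closedBall, not_le, not_le] at hpn
      rcases hpn with h | h
      · rw [b.zero_of_le_dist h.le]
        ring
      · rw [b.zero_of_le_dist h.le]
        ring
  refine ⟨fun p => p.2 * (b p.1 * b p.2), hTest, ?_, ?_⟩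
  · intro s t
    simp only
    rw [b.neg]
    ring
  · have hcont : Continuous (fun t : ℝ => |t| * gs t * b t) :=
      (continuous_abs.mul gs_cont).mul b.continuous
    have h1 : W (fun p => p.2 * (b p.1 * b p.2)) = ∫ t : ℝ, |t| * gs t * b t := by
      unfold W
      refine integral_congr_ae (Eventually.of_forall fun t => ?_)
      simp only
      rw [hb0, one_mul]
      have h2 : Real.sign t * t = |t| := by
        rcases lt_trichotomy t 0 with h | h | h
        · rw [Real.sign_of_neg h, abs_of_neg h]; ring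
        · rw [h]; simp
        · rw [Real.sign_of_pos h, abs_of_pos h]; ring
      rw [← h2]
      ring
    rw [h1]
    refine hcont.integral_pos_of_hasCompactSupport_nonneg_nonzero (x := 1) ?_ ?_ ?_
    · exact b.hasCompactSupport.mul_left
    · intro t
      exact mul_nonneg (mul_nonneg (abs_nonneg t) (gs_pos t).le) (b.nonneg)
    · have : b 1 = 1 := b.one_of_mem_closedBall (by
        rw [Metric.mem_closedBall, dist_zero_right]
        change ‖(1 : ℝ)‖ ≤ 1
        simp)
      rw [this]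
      have := gs_pos 1
      simp only [abs_one, one_mul, mul_one]
      exact this.ne'

theorem SS_pos : 0 < SS := by
  obtain ⟨w, hw, ho, hpos⟩ := co_exists_pos_W
  have h1 := W_sq_le hw ho
  have h2 : 0 < W w ^ 2 := by positivity
  have h3 : 0 < V w := by linarith
  refine lt_of_lt_of_le (div_pos h2 h3) (le_csSup co_SS_bdd ⟨w, hw, ho, rfl⟩)

theorem W_le (hw : Test w) (ho : Odd2 w) : W w ^ 2 ≤ SS * V w := by
  rcases (co_V_nonneg w).eq_or_lt with h | h
  · have h1 := W_sq_le hw ho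
    rw [← h, mul_zero] at h1 ⊢
    exact h1
  · have h1 : W w ^ 2 / V w ≤ SS := le_csSup co_SS_bdd ⟨w, hw, ho, rfl⟩
    rwa [div_le_iff₀ h] at h1

theorem co_d1_smul (hw : Test w) (c : ℝ) (p : ℝ × ℝ) : d1 (fun p => c * w p) p = c * d1 w p := by
  unfold d1
  rw [fderiv_const_mul (hw.diff p)]
  rfl

theorem co_d2_smul (hw : Test w) (c : ℝ) (p : ℝ × ℝ) : d2 (fun p => c * w p) p = c * d2 w p := by
  unfold d2
  rw [fderiv_const_mul (hw.diff p)]
  rfl

theorem co_V_smul (hw : Test w) (c : ℝ) : V (fun p => c * w p) = c ^ 2 * V w := by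
  unfold V
  rw [← integral_const_mul]
  refine integral_congr_ae (Eventually.of_forall fun p => ?_)
  simp only
  unfold D
  rw [co_d1_smul hw, co_d2_smul hw]
  ring

theorem co_W_smul (w : ℝ × ℝ → ℝ) (c : ℝ) : W (fun p => c * w p) = c * W w := by
  unfold W
  rw [← integral_const_mul]
  refine integral_congr_ae (Eventually.of_forall fun t => ?_)
  simp only
  ring

theorem exists_near {δ : ℝ} (hδ : 0 < δ) :
    ∃ w, Test w ∧ Odd2 w ∧ V w = 1 ∧ SS - δ ≤ W w ^ 2 := by
  have hSS := SS_pos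
  have hne : ({r | ∃ w, Test w ∧ Odd2 w ∧ r = W w ^ 2 / V w} : Set ℝ).Nonempty := by
    obtain ⟨w, hw, ho, -⟩ := co_exists_pos_W
    exact ⟨_, w, hw, ho, rfl⟩
  have hlt : SS - min δ (SS / 2) < SS := by
    have : 0 < min δ (SS / 2) := lt_min hδ (by positivity)
    linarith
  obtain ⟨r, ⟨w, hw, ho, rfl⟩, hr⟩ := exists_lt_of_lt_csSup hne hlt
  have h1 : 0 < W w ^ 2 / V w := by
    have := min_le_right δ (SS / 2)
    linarith
  have hV : 0 < V w := by
    rcases (co_V_nonneg w).eq_or_lt with h | h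
    · rw [← h, div_zero] at h1
      exact absurd h1 (lt_irrefl _)
    · exact h
  have hsq : (1 / √(V w)) ^ 2 = 1 / V w := by
    rw [div_pow, one_pow, Real.sq_sqrt hV.le]
  refine ⟨fun p => (1 / √(V w)) * w p, hw.smul _, ?_, ?_, ?_⟩
  · intro s t
    simp only
    rw [ho s t]
    ring
  · rw [co_V_smul hw, hsq]
    field_simp
  · rw [co_W_smul, mul_pow, hsq]
    have h2 := min_le_left δ (SS / 2)
    have h3 : 1 / V w * W w ^ 2 = W w ^ 2 / V w := by ring
    rw [h3]
    linarith

/-! ### antisymmetrization -/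

/-- reflection in the wire -/
def co_flip (f : ℝ × ℝ → ℝ) (p : ℝ × ℝ) : ℝ := f (p.1, -p.2)

theorem co_flip_meas : Measurable (fun p : ℝ × ℝ => ((p.1, -p.2) : ℝ × ℝ)) :=
  measurable_fst.prodMk measurable_snd.neg

theorem Nice.co_flipped (hf : Nice f) : Nice (co_flip f) := by
  obtain ⟨R, L, hR, hL, h⟩ := hf.bdd
  refine ⟨hf.meas.comp co_flip_meas, R, L, hR, hL, fun p => ⟨?_, fun hp => ?_⟩⟩
  · have := (h (p.1, -p.2)).1
    simp only [gs_neg] at this
    exact this
  · exact (h (p.1, -p.2)).2 hp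

theorem Nice.co_fint (hf : Nice f) : ∫ p in hp, co_flip f p = ∫ p in hp, f p := by
  rw [hf.co_flipped.fubini, hf.fubini]
  refine integral_congr_ae (Eventually.of_forall fun s => ?_)
  exact integral_neg_eq_self (fun t => f (s, t)) volume

theorem Test.co_flipped (hf : Test f) : Test (co_flip f) := by
  refine ⟨hf.1.comp (contDiff_fst.prodMk contDiff_snd.neg), ?_⟩
  obtain ⟨L, -, hL⟩ := hf.box
  refine HasCompactSupport.intro (K := Icc (-L) L ×ˢ Icc (-L) L) (isCompact_Icc.prod isCompact_Icc)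
    fun p hpn => hL (p.1, -p.2) ?_
  rw [mem_prod, not_and_or, mem_Icc, mem_Icc, ← abs_le, ← abs_le, not_le, not_le] at hpn
  simpa only [abs_neg] using hpn

theorem co_d1_flip (hf : Test f) (s t : ℝ) : d1 (co_flip f) (s, t) = d1 f (s, -t) :=
  (hasDerivAt_1 hf.co_flipped.diff s t).unique (hasDerivAt_1 hf.diff s (-t))

theorem co_d2_flip (hf : Test f) (s t : ℝ) : d2 (co_flip f) (s, t) = -d2 f (s, -t) := by
  have h1 := (hasDerivAt_2 hf.diff s (-t)).comp t (hasDerivAt_neg t)
  have h2 := (hasDerivAt_2 hf.co_flipped.diff s t).unique h1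
  rw [h2]
  ring

/-- the odd part -/
noncomputable def co_odd (u : ℝ × ℝ → ℝ) (p : ℝ × ℝ) : ℝ := 1 / 2 * (u p - co_flip u p)

theorem co_odd_test (hu : Test u) : Test (co_odd u) := (hu.sub hu.co_flipped).smul (1 / 2)

theorem co_odd_odd (u : ℝ × ℝ → ℝ) : Odd2 (co_odd u) := by
  intro s t
  simp only [co_odd, co_flip, neg_neg]
  ring

theorem co_d1_sub {f g : ℝ × ℝ → ℝ} (hf : Test f) (hg : Test g) (p : ℝ × ℝ) :
    d1 (fun p => f p - g p) p = d1 f p - d1 g p := by
  unfold d1
  rw [fderiv_fun_sub (hf.diff p) (hg.diff p)]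
  rfl

theorem co_d2_sub {f g : ℝ × ℝ → ℝ} (hf : Test f) (hg : Test g) (p : ℝ × ℝ) :
    d2 (fun p => f p - g p) p = d2 f p - d2 g p := by
  unfold d2
  rw [fderiv_fun_sub (hf.diff p) (hg.diff p)]
  rfl

theorem co_d1_odd (hu : Test u) (p : ℝ × ℝ) :
    d1 (co_odd u) p = 1 / 2 * (vs u p - co_flip (vs u) p) := by
  have h1 : d1 (co_odd u) p = 1 / 2 * (d1 u p - d1 (co_flip u) p) := by
    rw [← co_d1_sub hu hu.co_flipped]
    exact co_d1_smul (hu.sub hu.co_flipped) (1 / 2) p
  rw [h1]
  have h2 := co_d1_flip hu p.1 p.2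
  simp only [Prod.mk.eta] at h2
  rw [h2]
  simp only [vs, co_flip, gs_neg]
  ring

theorem co_D_odd (hu : Test u) (p : ℝ × ℝ) :
    D (co_odd u) p = 1 / 2 * (D u p + co_flip (D u) p) := by
  have h1 : d2 (co_odd u) p = 1 / 2 * (d2 u p - d2 (co_flip u) p) := by
    rw [← co_d2_sub hu hu.co_flipped]
    exact co_d2_smul (hu.sub hu.co_flipped) (1 / 2) p
  have h2 := co_d2_flip hu p.1 p.2
  simp only [Prod.mk.eta] at h2
  unfold D
  rw [h1, h2]
  simp only [co_odd, co_flip, sign_neg]
  ring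

theorem co_W_odd (hu : Test u) : W (co_odd u) = W u := by
  have h1 : W (co_odd u) = 1 / 2 * (W u - ∫ t, Real.sign t * gs t * u (0, -t)) := by
    have h2 : Integrable (fun t => Real.sign t * gs t * u (0, -t)) := co_W_integrable hu.co_flipped
    unfold W
    rw [← integral_sub (co_W_integrable hu) h2, ← integral_const_mul]
    refine integral_congr_ae (Eventually.of_forall fun t => ?_)
    simp only [co_odd, co_flip]
    ring
  have h3 : ∫ t, Real.sign t * gs t * u (0, -t) = -W u := by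
    unfold W
    rw [← integral_neg, ← integral_neg_eq_self]
    refine integral_congr_ae (Eventually.of_forall fun t => ?_)
    simp only [sign_neg, gs_neg, neg_neg]
    ring
  rw [h1, h3]
  ring

theorem co_V_odd_le (hu : Test u) : V (co_odd u) ≤ VV u := by
  have hvs := nice_vs hu
  have hD := hu.nice_D
  have e1 : ∫ p in hp, (vs u p ^ 2 + D u p ^ 2) =
      ∫ p in hp, co_flip (fun p => vs u p ^ 2 + D u p ^ 2) p :=
    (Nice.co_fint (hvs.sq.add hD.sq)).symm
  have e2 : VV u = ∫ p in hp, 1 / 2 * ((vs u p ^ 2 + D u p ^ 2) +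
      co_flip (fun p => vs u p ^ 2 + D u p ^ 2) p) := by
    rw [integral_const_mul, integral_add ((hvs.sq.add hD.sq).integrableOn hp)
      ((hvs.sq.add hD.sq).co_flipped.integrableOn hp), ← e1]
    unfold VV
    ring
  rw [e2]
  unfold V
  refine integral_mono (((co_odd_test hu).test_d1.nice.sq.add (co_odd_test hu).nice_D.sq).integrableOn hp)
    ((((hvs.sq.add hD.sq).add (hvs.sq.add hD.sq).co_flipped).const_mul (1 / 2)).integrableOn hp) fun p => ?_
  simp only
  rw [co_d1_odd hu, co_D_odd hu]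
  simp only [co_flip]
  nlinarith [sq_nonneg (vs u p + vs u (p.1, -p.2)), sq_nonneg (D u p - D u (p.1, -p.2))]

theorem W_le_VV (hu : Test u) : W u ^ 2 ≤ SS * VV u := by
  have h1 := W_le (co_odd_test hu) (co_odd_odd u)
  rw [co_W_odd hu] at h1
  exact h1.trans (mul_le_mul_of_nonneg_left (co_V_odd_le hu) SS_pos.le)

end LeakyWire
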